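import Pool.Agent.Q161.ESF.Def
import Pool.Agent.Q161.ESG.Stm6
import Pool.Agent.Q161.EA.Stm2

/-!
# Project ESF (helper161): 2-Selmer groups over the Galois number fields of odd degree

`F` a number field, `E : y² = x³ + A x + B` over `F`, the cubic irreducible over `F`, `L = F(ϑ)`, `ϑ` a zero of it.
This is the generalisation to all number fields of the jobs `S_K90`, `S_KD`, `S_KI`, `S_KL`, `S_GRP2`, `S_SHA` of project EA
(`Pool/Agent/Q161/EA/Stm2.lean`; proofs: `Pool/Agent/Q68/EA/{K90, KI, KL, GRP2, Emb}.lean`,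
`Pool/Agent/Q26/EA/{Kd, Sha}.lean`), and of `S_LCF` (`Pool/Agent/Q193/ESG/{LcfA, LcfB, LCF}.lean`) to the elements of the
Selmer group.  The algebraic part (`IsX, IsR, gf` ..: `Pool/Agent/TH841/SH/{Alg, Alg2}.lean`) is for general fields.
-/

set_option autoImplicit false

namespace Pool.Agent.Q161.ESF

open WeierstrassCurve Polynomial NumberField IsDedekindDomain

open scoped Classical

open Pool.Agent.Q161.EA (sg)
open Pool.Agent.Q161.ESG (shF)
open Pool.Agent.Q161.ESM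

/-- `L = F(ϑ)`, `ϑ` a zero of the irreducible polynomial `x³ + A x + B` -/
structure CubF {F : Type} [Field F] (A B : F) (L : Type) [Field L] [Algebra F L] (ϑ : L) : Prop where
  irr : Irreducible (X ^ 3 + C A * X + C B : F[X])
  root : ϑ ^ 3 + algebraMap F L A * ϑ + algebraMap F L B = 0
  deg : Module.finrank F L = 3

/-- Kummer data for the cocycle `f` -/
structure KDF {F : Type} [Field F] {L : Type} [Field L] [Algebra F L] (W : WeierstrassCurve F) (ϑ : L)
    (f : GF F → Pt W (AlgebraicClosure F)) (γ : (L →ₐ[F] AlgebraicClosure F) → AlgebraicClosure F)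
    (δ : L) : Prop where
  ne : ∀ e, γ e ≠ 0
  gal : ∀ (σ : GF F) (e : L →ₐ[F] AlgebraicClosure F),
    σ (γ (σ.symm.toAlgHom.comp e)) = sg (W.baseChange (AlgebraicClosure F)) (e ϑ) (f σ) * γ e
  sq : ∀ e, γ e ^ 2 = e δ

/-- JOB K90F. Hilbert 90 (adapt `Pool/Agent/Q68/EA/K90.lean`, `ℚ` replaced by `F`). -/
def S_K90F : Prop := ∀ (F : Type) [Field F] [CharZero F] (L : Type) [Field L] [Algebra F L]
  [FiniteDimensional F L] (c : GF F → (L →ₐ[F] AlgebraicClosure F) → AlgebraicClosure F),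
  (∀ e, IsLocallyConstant (fun σ => c σ e)) → (∀ σ e, c σ e = 1 ∨ c σ e = -1) →
  (∀ (σ τ : GF F) (e : L →ₐ[F] AlgebraicClosure F),
    c (σ * τ) e = c σ e * c τ (σ.symm.toAlgHom.comp e)) →
  ∃ (γ : (L →ₐ[F] AlgebraicClosure F) → AlgebraicClosure F) (δ : L), (∀ e, γ e ≠ 0) ∧
    (∀ (σ : GF F) (e : L →ₐ[F] AlgebraicClosure F), σ (γ (σ.symm.toAlgHom.comp e)) = c σ e * γ e) ∧
    ∀ e, γ e ^ 2 = e δ

/-- JOB KDF. Every cocycle has Kummer data (from `S_K90F`; adapt `Pool/Agent/Q26/EA/Kd.lean`). -/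
def S_KDF : Prop := ∀ (F : Type) [Field F] [CharZero F] (A B : F) (L : Type) [Field L] [Algebra F L]
  (ϑ : L), CubF A B L ϑ → ∀ f : GF F → Pt (shF A B) (AlgebraicClosure F), IsCoc (shF A B) f →
  (∀ σ, f σ + f σ = 0) → ∃ (γ : (L →ₐ[F] AlgebraicClosure F) → AlgebraicClosure F) (δ : L),
    KDF (shF A B) ϑ f γ δ

/-- JOB KIF. Injectivity (adapt `Pool/Agent/Q68/EA/KI.lean`; easier, since `δ δ'` is a square in `L`).
Proof.  `δ δ' = η²`, so `γ(e) γ'(e) = s(e) e(η)`, `s(e) = ± 1`; replace `η` by `-η` if necessary, so that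
`∏_e s(e) = 1` (three embeddings); there is a `T` with `2 T = 0` and `sg (e ϑ) T = s(e)` for all `e`, and
`f σ - f' σ`, `σ T - T` have the same signs; `IsR.ext`. -/
def S_KIF : Prop := ∀ (F : Type) [Field F] [CharZero F] (A B : F) (L : Type) [Field L] [Algebra F L]
  (ϑ : L), CubF A B L ϑ → ∀ (f f' : GF F → Pt (shF A B) (AlgebraicClosure F))
  (γ γ' : (L →ₐ[F] AlgebraicClosure F) → AlgebraicClosure F) (δ δ' : L),
  (∀ σ, f σ + f σ = 0) → (∀ σ, f' σ + f' σ = 0) → KDF (shF A B) ϑ f γ δ → KDF (shF A B) ϑ f' γ' δ' →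
  IsSquare (δ * δ') → ∃ T : Pt (shF A B) (AlgebraicClosure F), T + T = 0 ∧
    ∀ σ : GF F, f σ - f' σ = act (shF A B) σ.toAlgHom T - T

/-- JOB KLF. Local solubility, with a point which is not of order dividing 4 (adapt `Pool/Agent/Q68/EA/KL.lean`).
Proof.  `Ω` = the algebraic closure of `K`, `P ∈ E(Ω)` with `ι(f σ) = τ P - P`.  If `4 P = 0` replace `P` by `P + S`
(`S` is rational over `K`, `4 (P + S) = 4 S ≠ 0`).  So `4 P ≠ 0`, `2 P = (x, y)` is fixed by all `τ`, so `x, y ∈ K`, and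
`y ≠ 0`.  The rest is case 1 of `S_KL`: `x - e ϑ = g_e(P)²`, `h(e) = g_e(P)/ι(γ(e'))`, interpolation
(`Pool/Agent/Q26/EA` `itp`, or `Pool.Agent.Q150.ESG.itpJ`, with `F` instead of `ℚ`). -/
def S_KLF : Prop := ∀ (F : Type) [Field F] [CharZero F] (A B : F) (L : Type) [Field L] [Algebra F L]
  (ϑ : L), CubF A B L ϑ → ∀ (f : GF F → Pt (shF A B) (AlgebraicClosure F))
  (γ : (L →ₐ[F] AlgebraicClosure F) → AlgebraicClosure F) (δ : L), (∀ σ, f σ + f σ = 0) →
  KDF (shF A B) ϑ f γ δ → ∀ (K : Type) [Field K] [Algebra F K], LocTriv (shF A B) K f →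
  (∃ S : Pt (shF A B) K, S + S + (S + S) ≠ 0) → ∀ d : F[X], aeval ϑ d = δ →
  ∃ (x y : K) (g : K[X]), y ≠ 0 ∧ y ^ 2 = x ^ 3 + algebraMap F K A * x + algebraMap F K B ∧
    (X ^ 3 + C A * X + C B : F[X]).map (algebraMap F K) ∣ C x - X - d.map (algebraMap F K) * g ^ 2

/-- JOB INF. A local point which is not of order dividing 4.
Proof.  `x = 1/t²`, `t ∈ F^*` with `v(t)` large: `x³ + A x + B = t^(-6) (1 + A t⁴ + B t⁶)` is a square in the
completion (Hensel's lemma, `v` does not divide 2; prove it from the completeness by Newton's iteration or find it in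
Mathlib: `HenselianLocalRing`, `IsAdicComplete.henselianRing`).  Different `t²` give different points `S`, and the
abscissas of the `S` with `4 S = 0` are in a finite set (over the algebraic closure: `2 S = 0`, or `2 S = (e, 0)`, and
then `(x - e)² = (e - e') (e - e'')`, see `IsR.dup`, `gf` in `Pool/Agent/TH841/SH/{Alg, Alg2}.lean`). -/
def S_INF : Prop := ∀ (F : Type) [Field F] [NumberField F] (A B : F), 4 * A ^ 3 + 27 * B ^ 2 ≠ 0 →
  ∀ v : HeightOneSpectrum (𝓞 F), (2 : 𝓞 F) ∉ v.asIdeal →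
    ∃ S : Pt (shF A B) (v.adicCompletion F), S + S + (S + S) ≠ 0

/-- the class of `δ` comes, up to elements near to `1` at the primes above `v`, from an element `x` of `F` which is
near to the abscissa of a point of the twist by `D` over the completion at `v` -/
def LV {F L : Type} [Field F] [NumberField F] [Field L] [NumberField L] [Algebra F L] (a b : 𝓞 F)
    (th : 𝓞 L) (D : ℤ) (v : HeightOneSpectrum (𝓞 F)) (δ : L) : Prop :=
  ∃ (x y : F) (η : L), y ≠ 0 ∧ η ≠ 0 ∧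
    v.valuation F ((x ^ 3 + ((a : F) * (D : F) ^ 2) * x + (b : F) * (D : F) ^ 3) / y ^ 2 - 1) < 1 ∧
    ∀ V : HeightOneSpectrum (𝓞 L), V.asIdeal.comap (algebraMap (𝓞 F) (𝓞 L)) = v.asIdeal →
      V.valuation L (δ / ((algebraMap F L x - (D : L) * (th : L)) * η ^ 2) - 1) < 1

/-- JOB APX. Approximation.
Proof.  Let `h = x³ + a D² x + b D³`, `ϑ = D θ`, `C x - X - d g² = h q` over the completion `F_v`.  `F` is dense in `F_v`: let
`x', y' ∈ F`, `g', q' ∈ F[X]` be near to `x, y, g, q` (coefficientwise), so `C x' - X - d g'² - h q' = r'` has small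
coefficients and `h(x')/y'²` is near to `1`.  Let `V` be above `v`.  At `ϑ`: `x' - ϑ - δ g'(ϑ)² = r'(ϑ)` has small valuation at
`V` (`ϑ` is integral; for `c ∈ F` the valuation at `V` is a power, with exponent `≥ 1`, of the one at `v`), and
`h(x') = (x' - ϑ) k(x')`, `k` monic with integral coefficients in `L`, so the valuation of `x' - ϑ` at `V` is bounded from
below by a constant which depends on `x, y` (`h(x') ~ y² ≠ 0`).  So `δ g'(ϑ)²/(x' - ϑ)` is near to `1`; `η = 1/g'(ϑ)`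
(`g'(ϑ) ≠ 0`, as the quotient is not `0`; if there is no `V` above `v` ..: there is one). -/
def S_APX : Prop := ∀ (F L : Type) [Field F] [NumberField F] [Field L] [NumberField L] [Algebra F L]
  (a b : 𝓞 F) (th : 𝓞 L), CubF (a : F) (b : F) L (th : L) → ∀ D : ℤ, D ≠ 0 →
  ∀ (v : HeightOneSpectrum (𝓞 F)) (δ : L), δ ≠ 0 → ∀ (d : F[X]) (x y : v.adicCompletion F)
    (g : (v.adicCompletion F)[X]), aeval ((D : L) * (th : L)) d = δ → y ≠ 0 →
  y ^ 2 = x ^ 3 + algebraMap F (v.adicCompletion F) ((a : F) * (D : F) ^ 2) * x +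
    algebraMap F (v.adicCompletion F) ((b : F) * (D : F) ^ 3) →
  (X ^ 3 + C ((a : F) * (D : F) ^ 2) * X + C ((b : F) * (D : F) ^ 3) : F[X]).map
    (algebraMap F (v.adicCompletion F)) ∣
      C x - X - d.map (algebraMap F (v.adicCompletion F)) * g ^ 2 → LV a b th D v δ

/-- JOB LCG. The local conditions for the elements of the Selmer group.
Proof.  Adapt `S_LCF` (statement and proof in `Pool/Agent/Q161/ESG/Stm6.lean`; Lean: `Pool/Agent/Q193/ESG/LCF.lean`, `loc`,
`tri`, `rr`, `loc_odd`).  Choose `x_v, y_v, η_v` for every `v`.  Let `w` be a prime of `K` above `l ∤ B` (`2 ∣ B`), `ι : L → K`,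
`V` the prime of `L` with `ι(V) ⊆ w`, `v` the one of `F` (`τ = ι|F`).  Then `y_τ² = (1 + m) ∏_{ι | F = τ} (x_τ - D ι θ)` and
`ι δ = (x_τ - D ι θ) (ι η_v)² (1 + m')`, `m, m'` of positive valuation at `w` (`x_τ = τ(x_v)`).  `v` is the same for `ι` and
for `F ∘ ι` (`F` a Frobenius element at `w`), so everything is equivariant under `F` as in `S_LCF`; the `e` of `Gd1.odd` is
`Ee w (x_v - D θ)`, and `r_ι` is multiplied by `ι η_v`. -/
def S_LCG : Prop := ∀ (F L : Type) [Field F] [NumberField F] [Field L] [NumberField L] [Algebra F L]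
  (a b : 𝓞 F) (th : 𝓞 L), CubF (a : F) (b : F) L (th : L) →
  ∀ (K : Type) [Field K] [NumberField K] [IsGalois ℚ K], Nonempty (L →+* K) →
  ∃ B : ℕ, B ≠ 0 ∧ ∀ D : ℤ, Squarefree D → ∀ δ : L, δ ≠ 0 →
    (∀ v : HeightOneSpectrum (𝓞 F), (2 : 𝓞 F) ∉ v.asIdeal → LV a b th D v δ) →
      Gd1 K (algebraMap F L) th B D δ

/-- JOB GRPF. `0 → E(F)/2 → Sel_2 → Ш[2] → 0` (adapt `Pool/Agent/Q68/EA/GRP2.lean`; Mordell-Weil:
`Pool.Agent.Q286.EQ.mordell_weil`). -/
def S_GRPF : Prop := ∀ (F : Type) [Field F] [NumberField F] (A B : F), 4 * A ^ 3 + 27 * B ^ 2 ≠ 0 →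
  Finite (Sel2 (shF A B)) → Finite {x : Sha (shF A B) // x + x = 0} ∧
    2 ^ Module.finrank ℤ (shF A B).toAffine.Point * Nat.card {x : Sha (shF A B) // x + x = 0} ≤
      Nat.card (Sel2 (shF A B))

/-- JOB SHAF. The classes of the elements of the Selmer group (from `S_KDF`, `S_KIF`, `S_KLF`, `S_INF`, `S_APX`;
compare `Pool/Agent/Q26/EA/Sha.lean`).  `D θ` is a zero of `x³ + a D² x + b D³`, irreducible. -/
def S_SHAF : Prop := ∀ (F L : Type) [Field F] [NumberField F] [Field L] [NumberField L] [Algebra F L]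
  (a b : 𝓞 F) (th : 𝓞 L), CubF (a : F) (b : F) L (th : L) → ∀ D : ℤ, D ≠ 0 →
  ∃ Φ : Sel2 (shF ((a : F) * (D : F) ^ 2) ((b : F) * (D : F) ^ 3)) → L,
    (∀ x, Φ x ≠ 0 ∧ ∀ v : HeightOneSpectrum (𝓞 F), (2 : 𝓞 F) ∉ v.asIdeal → LV a b th D v (Φ x)) ∧
    ∀ x y, IsSquare (Φ x * Φ y) → x = y

end Pool.Agent.Q161.ESF
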