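import Mathlib

/-! # Project ESF: the elements killed by `2^n` -/

set_option autoImplicit false

namespace Pool.Agent.Q161.ESF

variable {A : Type} [AddCommGroup A]

/-- the elements killed by `2^n` -/
def T2 (A : Type) [AddCommGroup A] (n : ℕ) : AddSubgroup A where
  carrier := {x | 2 ^ n • x = 0}
  zero_mem' := smul_zero _
  add_mem' := by
    intro x y hx hy
    change 2 ^ n • (x + y) = 0
    rw [smul_add, hx, hy, add_zero]
  neg_mem' := by
    intro x hx
    change 2 ^ n • (-x) = 0
    rw [smul_neg, hx, neg_zero]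

theorem mem_T2 {n : ℕ} {x : A} : x ∈ T2 A n ↔ 2 ^ n • x = 0 := Iff.rfl

theorem mem_T2_one {x : A} : x ∈ T2 A 1 ↔ x + x = 0 := by
  rw [mem_T2, pow_one, two_nsmul]

/-- multiplication by 2 -/
def dbl (A : Type) [AddCommGroup A] (n : ℕ) : T2 A (n + 1) →+ T2 A n where
  toFun x := ⟨x.1 + x.1, by
    have h := x.2
    rw [mem_T2] at h ⊢
    rw [← two_nsmul, ← mul_nsmul', ← pow_succ]
    exact h⟩
  map_zero' := Subtype.ext (add_zero 0)
  map_add' := by
    intro x y
    apply Subtype.ext
    change x.1 + y.1 + (x.1 + y.1) = x.1 + x.1 + (y.1 + y.1)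
    abel

theorem card_T2 (h : Finite (T2 A 1)) (n : ℕ) :
    Finite (T2 A n) ∧ Nat.card (T2 A n) ≤ Nat.card (T2 A 1) ^ n := by
  induction n with
  | zero =>
    have h0 : ∀ x : T2 A 0, x = 0 := fun x => by
      apply Subtype.ext
      have := x.2
      rw [mem_T2, pow_zero, one_smul] at this
      exact this
    have : Subsingleton (T2 A 0) := ⟨fun x y => by rw [h0 x, h0 y]⟩
    refine ⟨inferInstance, ?_⟩
    rw [pow_zero]
    exact Finite.card_le_one_iff_subsingleton.2 this
  | succ n ih =>
    obtain ⟨h1, h2⟩ := ih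
    have hk : Finite (dbl A n).ker := by
      refine Finite.of_injective (fun x : (dbl A n).ker => (⟨x.1.1, ?_⟩ : T2 A 1)) ?_
      · rw [mem_T2_one]
        exact congrArg Subtype.val x.2
      · intro x y hxy
        apply Subtype.ext
        apply Subtype.ext
        exact congrArg (fun z : T2 A 1 => z.1) hxy
    have hk2 : Nat.card (dbl A n).ker ≤ Nat.card (T2 A 1) := by
      refine Nat.card_le_card_of_injective (fun x : (dbl A n).ker => (⟨x.1.1, ?_⟩ : T2 A 1)) ?_
      · rw [mem_T2_one]
        exact congrArg Subtype.val x.2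
      · intro x y hxy
        apply Subtype.ext
        apply Subtype.ext
        exact congrArg (fun z : T2 A 1 => z.1) hxy
    have hr : Finite (dbl A n).range := inferInstance
    have e := (QuotientAddGroup.quotientKerEquivRange (dbl A n)).toEquiv
    have hq : Finite (T2 A (n + 1) ⧸ (dbl A n).ker) := Finite.of_equiv _ e.symm
    have hc : Nat.card (T2 A (n + 1)) =
        Nat.card (T2 A (n + 1) ⧸ (dbl A n).ker) * Nat.card (dbl A n).ker :=
      AddSubgroup.card_eq_card_quotient_mul_card_addSubgroup _
    have hfin : Finite (T2 A (n + 1)) := by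
      apply Nat.finite_of_card_ne_zero
      rw [hc]
      exact mul_ne_zero Nat.card_pos.ne' Nat.card_pos.ne'
    refine ⟨hfin, ?_⟩
    rw [hc, Nat.card_congr e, pow_succ]
    refine Nat.mul_le_mul (le_trans ?_ h2) hk2
    exact Nat.card_le_card_of_injective (fun x => x.1) Subtype.val_injective

end Pool.Agent.Q161.ESF
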