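import Pool.Agent.Q161.ESF.Cor
import Pool.Agent.Q238.ESF.Inf
import Pool.Agent.Q68.ESF.Splm
import Pool.Agent.Q123.ESF.SEMA
import Pool.Agent.Q123.ESF.KCD
import Pool.Agent.Q123.ESF.SEMN
import Pool.Agent.Q96.ESF.Loc3
import Pool.Agent.Q195.ESF.CNT3
import Pool.Agent.Q151.ESF.Den
import Pool.Agent.Q275.ESF.One
import Pool.Agent.Q275.ESF.Full

/-!
# Project ESF: the final theorems

The projects EA, ESM, ESG, ESF were written by helper161 with helpers 14, 24, 26, 38, 63, 68, 92, 96, 121, 123, 124, 129, 149,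
150, 151, 153, 166, 177, 182, 184, 193, 195, 208, 211, 223, 224, 237, 238, 241, 261, 275, 285, 299.
-/

set_option autoImplicit false

namespace Pool.Agent.Q161.ESF

open Finset NumberField

open scoped Classical

open Pool.Agent.Q161.EA (twists squarefree_of_mem)

theorem t_inf : S_INF := Pool.Agent.Q238.ESF.inf
theorem t_splm : S_SPLM := Pool.Agent.Q68.ESF.splm
theorem t_semn : S_SEMN := Pool.Agent.Q123.ESF.semn Pool.Agent.Q123.ESF.sema Pool.Agent.Q123.ESF.kcd
theorem t_full : S_FULL := Pool.Agent.Q275.ESF.full t_splm Pool.Agent.Q96.ESF.loc3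
  Pool.Agent.Q151.ESF.den (Pool.Agent.Q275.ESF.one Pool.Agent.Q195.ESF.cnt3)

theorem almost_all (F : Type) [Field F] [NumberField F] :
    AlmostAll F (fun a b => Admissible a b) := almostAll t_full F

section main

variable {r : ℕ} (F : Fin r → Type) [∀ i, Field (F i)] [∀ i, NumberField (F i)]
  (a b : (i : Fin r) → 𝓞 (F i)) (h : ∀ i, Admissible (a i) (b i))

/-- the product of the orders of the 2-Selmer groups of the twists by `D` -/
noncomputable def selProd (D : ℤ) : ℝ := ∏ i, (selOrder (a i) (b i) D : ℝ)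

theorem selProd_nonneg (D : ℤ) : 0 ≤ selProd F a b D :=
  prod_nonneg fun _ _ => Nat.cast_nonneg _

include h in
theorem selProd_one {D : ℤ} (hD : Squarefree D) : 1 ≤ selProd F a b D := by
  unfold selProd
  rw [← prod_const_one (s := (univ : Finset (Fin r)))]
  exact prod_le_prod (fun _ _ => zero_le_one) fun i _ => by
    exact_mod_cast selOrder_pos t_inf t_semn (h i) hD

include h in
/-- all joint moments of the orders of the 2-Selmer groups -/
theorem selMoments (k : ℕ) : ∃ C : ℝ, 0 < C ∧ ∀ X : ℝ, 1 ≤ X →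
    ∑ D ∈ twists X, selProd F a b D ^ k ≤ C * X := by
  obtain ⟨C, hC, h2⟩ := moments t_inf t_semn (Fin r) F a b h k
  refine ⟨C, hC, fun X hX => ?_⟩
  refine le_trans (le_of_eq (sum_congr rfl fun D hD => ?_)) (h2 X hX)
  rw [selProd, prod_pow]

end main

/-- a function with bounded moments -/
theorem bounds {s t : ℤ → ℝ} {k : ℕ} (h0 : ∀ D : ℤ, Squarefree D → 0 ≤ s D ∧ s D ≤ t D) {C X : ℝ}
    (h : ∑ D ∈ twists X, t D ^ k ≤ C * X) :
    (∑ D ∈ twists X, s D ^ k ≤ C * X) ∧
      (∀ T : ℝ, 0 < T → (((twists X).filter (fun D => T ≤ s D)).card : ℝ) ≤ C * X / T ^ k) ∧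
      ∀ S : Finset ℤ, S ⊆ twists X → S.Nonempty →
        ∏ D ∈ S, s D ^ k ≤ (C * X / S.card) ^ S.card := by
  have h1 : ∑ D ∈ twists X, s D ^ k ≤ C * X := le_trans (sum_le_sum fun D hD =>
    pow_le_pow_left₀ (h0 D (squarefree_of_mem hD)).1 (h0 D (squarefree_of_mem hD)).2 k) h
  refine ⟨h1, fun T hT => ?_, fun S hS hne => ?_⟩
  · exact Pool.Agent.Q161.ESM.markov s (fun D hD => (h0 D (squarefree_of_mem hD)).1) k h1 hT
  · refine Pool.Agent.Q161.ESM.geom S hne _ (fun D hD =>
      pow_nonneg (h0 D (squarefree_of_mem (hS hD))).1 k) (le_trans ?_ h1)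
    exact sum_le_sum_of_subset_of_nonneg hS
      (fun D hD _ => pow_nonneg (h0 D (squarefree_of_mem hD)).1 k)

end Pool.Agent.Q161.ESF
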