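import Pool.Agent.Q161.ESF.Goal2
import Pool.Agent.Q161.ESF.Pow

/-! # Project ESF: corollaries -/

set_option autoImplicit false

namespace Pool.Agent.Q161.ESF

open Polynomial NumberField IsDedekindDomain

open scoped Classical

open Pool.Agent.Q161.EA (twists squarefree_of_mem)
open Pool.Agent.Q161.ESG (shF twF t_mqr t_mqd)

section defs

variable {F : Type} [Field F] [NumberField F]

/-- the quadratic twist `y² = x³ + a D² x + b D³` by `D` of the elliptic curve `y² = x³ + a x + b` over `F` -/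
noncomputable def tw (a b : 𝓞 F) (D : ℤ) : WeierstrassCurve F :=
  ⟨0, 0, 0, (a : F) * (D : F) ^ 2, (b : F) * (D : F) ^ 3⟩

/-- the order of the 2-Selmer group over `F` of the twist by `D` -/
noncomputable def selOrder (a b : 𝓞 F) (D : ℤ) : ℕ := Nat.card (Sel2 (tw a b D))

/-- the elements of order dividing 2 of the Tate-Shafarevich group over `F` of the twist by `D` -/
abbrev ShaTwo (a b : 𝓞 F) (D : ℤ) : Type := {x : Sha (tw a b D) // x + x = 0}

/-- the order of `Ш[2]` of the twist by `D` -/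
noncomputable def shaOrder (a b : 𝓞 F) (D : ℤ) : ℕ := Nat.card (ShaTwo a b D)

/-- the elements `x` with `2^n x = 0` of the Tate-Shafarevich group over `F` of the twist by `D` -/
abbrev ShaPow (a b : 𝓞 F) (D : ℤ) (n : ℕ) : Type := {x : Sha (tw a b D) // 2 ^ n • x = 0}

/-- the rank of the group of the points over `F` of the twist by `D` -/
noncomputable def rank (a b : 𝓞 F) (D : ℤ) : ℕ := Module.finrank ℤ (tw a b D).toAffine.Point

/-- there is a Galois number field `M` with the properties `Adm` -/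
def Admissible (a b : 𝓞 F) : Prop := ∃ (M : Type) (_ : Field M) (_ : NumberField M), Adm a b M

end defs

/-- `P` holds for almost all pairs of integers of `F`: for every `ε > 0` there are `q ≥ 1` and at least
`(1 - ε) q^(2 [F : ℚ])` pairs of classes modulo `q` such that `P` holds for all `(a, b)` in these classes -/
def AlmostAll (F : Type) [Field F] [NumberField F] (P : 𝓞 F → 𝓞 F → Prop) : Prop :=
  ∀ ε : ℝ, 0 < ε → ∃ (q : ℕ) (R : Finset (Cl F q × Cl F q)), q ≠ 0 ∧
    (1 - ε) * (q : ℝ) ^ (2 * Module.finrank ℚ F) ≤ R.card ∧ ∀ a b : 𝓞 F,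
      (Ideal.Quotient.mk (Ideal.span {(q : 𝓞 F)}) a, Ideal.Quotient.mk (Ideal.span {(q : 𝓞 F)}) b) ∈ R →
        P a b

theorem almostAll (h : S_FULL) (F : Type) [Field F] [NumberField F] :
    AlmostAll F (fun a b => Admissible a b) := by
  intro ε hε
  obtain ⟨q, R, h1, h2, M, i1, i2, h3⟩ := h F ε hε
  exact ⟨q, R, h1, h2, fun a b hab => ⟨M, i1, i2, h3 a b hab⟩⟩

theorem admissible_odd {F : Type} [Field F] [NumberField F] (hG : IsGalois ℚ F)
    (hodd : Odd (Module.finrank ℚ F)) {a b : 𝓞 F}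
    (h : ∀ x : F, x ^ 3 + (a : F) * x + (b : F) ≠ 0) : Admissible a b :=
  ⟨F, inferInstance, inferInstance, adm_odd hG hodd h⟩

section main

variable (hI : S_INF) (hN : S_SEMN)

include hI hN

theorem fin_sel' {F : Type} [Field F] [NumberField F] {a b : 𝓞 F} (h : Admissible a b) {D : ℤ}
    (hD : Squarefree D) : Finite (Sel2 (tw a b D)) := by
  obtain ⟨M, i1, i2, h⟩ := h
  exact fin_sel2 hI hN F a b h D hD

theorem sha_le {F : Type} [Field F] [NumberField F] {a b : 𝓞 F} (h : Admissible a b) {D : ℤ}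
    (hD : Squarefree D) : Finite (ShaTwo a b D) ∧
      2 ^ rank a b D * shaOrder a b D ≤ selOrder a b D := by
  have hDF : (D : F) ≠ 0 := by exact_mod_cast hD.ne_zero
  obtain ⟨M, i1, i2, h1⟩ := id h
  exact t_grpf F ((a : F) * (D : F) ^ 2) ((b : F) * (D : F) ^ 3)
    (Pool.Agent.Q193.ESG.disc_ne (Pool.Agent.Q161.ESG.irrF (twF hDF h1.noroot)))
    (fin_sel' hI hN h hD)

omit hI hN in
theorem shaOrder_pos {F : Type} [Field F] [NumberField F] {a b : 𝓞 F} {D : ℤ}
    (h : Finite (ShaTwo a b D)) : 1 ≤ shaOrder a b D := by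
  have : Nonempty (ShaTwo a b D) := ⟨⟨0, add_zero 0⟩⟩
  exact Nat.card_pos

theorem shaPow_le {F : Type} [Field F] [NumberField F] {a b : 𝓞 F} (h : Admissible a b) {D : ℤ}
    (hD : Squarefree D) (n : ℕ) : Finite (ShaPow a b D n) ∧
      (n ≠ 0 → 2 ^ rank a b D * Nat.card (ShaPow a b D n) ≤ selOrder a b D ^ n) := by
  obtain ⟨h1, h2⟩ := sha_le hI hN h hD
  have e : (fun x : Sha (tw a b D) => x ∈ T2 (Sha (tw a b D)) 1) = fun x => x + x = 0 := by
    funext x
    exact propext mem_T2_one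
  have h3 : Finite (T2 (Sha (tw a b D)) 1) := by
    rw [e]
    exact h1
  have h4 : Nat.card (T2 (Sha (tw a b D)) 1) = shaOrder a b D := by
    rw [e]
    rfl
  obtain ⟨h5, h6⟩ := card_T2 h3 n
  rw [h4] at h6
  refine ⟨h5, fun hn => ?_⟩
  have h7 : 2 ^ rank a b D ≤ (2 ^ rank a b D) ^ n := Nat.le_self_pow hn _
  calc 2 ^ rank a b D * Nat.card (ShaPow a b D n) ≤ (2 ^ rank a b D) ^ n * shaOrder a b D ^ n :=
        Nat.mul_le_mul h7 h6
    _ = (2 ^ rank a b D * shaOrder a b D) ^ n := (mul_pow _ _ _).symm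
    _ ≤ _ := Nat.pow_le_pow_left h2 n

theorem rank_le {F : Type} [Field F] [NumberField F] {a b : 𝓞 F} (h : Admissible a b) {D : ℤ}
    (hD : Squarefree D) : 2 ^ rank a b D ≤ selOrder a b D := by
  obtain ⟨h1, h2⟩ := sha_le hI hN h hD
  exact le_trans (Nat.le_mul_of_pos_right _ (shaOrder_pos h1)) h2

theorem selOrder_pos {F : Type} [Field F] [NumberField F] {a b : 𝓞 F} (h : Admissible a b) {D : ℤ}
    (hD : Squarefree D) : 1 ≤ selOrder a b D :=
  le_trans Nat.one_le_two_pow (rank_le hI hN h hD)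

theorem shaPow_le' {F : Type} [Field F] [NumberField F] {a b : 𝓞 F} (h : Admissible a b) {D : ℤ}
    (hD : Squarefree D) (n : ℕ) :
    2 ^ rank a b D * Nat.card (ShaPow a b D n) ≤ selOrder a b D ^ (n + 1) := by
  by_cases hn : n = 0
  · subst hn
    have h1 : Nat.card (ShaPow a b D 0) ≤ 1 := by
      have h2 := (card_T2 (A := Sha (tw a b D)) (by
        have h3 := (shaPow_le hI hN h hD 1).1
        exact h3) 0).2
      rw [pow_zero] at h2
      exact h2
    calc 2 ^ rank a b D * Nat.card (ShaPow a b D 0) ≤ 2 ^ rank a b D * 1 := Nat.mul_le_mul_left _ h1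
      _ ≤ selOrder a b D ^ (0 + 1) := by
        rw [mul_one, zero_add, pow_one]
        exact rank_le hI hN h hD
  · refine le_trans ((shaPow_le hI hN h hD n).2 hn) ?_
    exact Nat.pow_le_pow_right (selOrder_pos hI hN h hD) (Nat.le_succ n)

/-- the joint moments -/
theorem moments (J : Type) [Fintype J] (F : J → Type) [∀ j, Field (F j)] [∀ j, NumberField (F j)]
    (a b : (j : J) → 𝓞 (F j)) (h : ∀ j, Admissible (a j) (b j)) (k : ℕ) :
    ∃ C : ℝ, 0 < C ∧ ∀ X : ℝ, 1 ≤ X →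
      ∑ D ∈ twists X, ∏ j, (selOrder (a j) (b j) D : ℝ) ^ k ≤ C * X := by
  choose M i1 i2 hM using h
  obtain ⟨C, hC, h2⟩ := goalS2 hI hN (J × Fin k) (fun i => F i.1) (fun i => M i.1)
    (fun i => a i.1) (fun i => b i.1) (fun i => hM i.1)
  refine ⟨C, hC, fun X hX => ?_⟩
  have h3 := h2 X hX
  rw [Nat.cast_sum] at h3
  refine le_trans (Finset.sum_le_sum fun D hD => le_of_eq ?_) h3
  rw [Fintype.prod_prod_type, Nat.cast_prod]
  refine Finset.prod_congr rfl fun j _ => ?_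
  have e : ∀ n : ℕ, (∏ _x : Fin k, n) = n ^ k := fun n => by simp
  rw [← Nat.cast_pow]
  exact congrArg Nat.cast (e (selOrder (a j) (b j) D)).symm

/-- the ranks over elementary abelian extensions `N j` of `F j` -/
theorem rankMoments (J : Type) [Fintype J] (F N : J → Type) [∀ j, Field (F j)]
    [∀ j, NumberField (F j)] [∀ j, Field (N j)] [∀ j, NumberField (N j)] [∀ j, Algebra (F j) (N j)]
    (hG : ∀ j, IsGalois (F j) (N j)) (h2 : ∀ j, ∀ σ : N j ≃ₐ[F j] N j, σ * σ = 1)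
    (a b : (j : J) → 𝓞 (F j)) (h : ∀ j, Admissible (a j) (b j)) (k : ℕ) :
    ∃ C : ℝ, 0 < C ∧ ∀ X : ℝ, 1 ≤ X →
      ∑ D ∈ twists X, ∏ j, ((2 : ℝ) ^ Module.finrank ℤ (shF
          (algebraMap (F j) (N j) ((a j : F j) * (D : F j) ^ 2))
          (algebraMap (F j) (N j) ((b j : F j) * (D : F j) ^ 3))).toAffine.Point) ^ k ≤ C * X := by
  choose m d hd0 hd using fun j => t_mqd (F j) (N j) (hG j)
  have hadm : ∀ i : (j : J) × Fin (m j), Admissible (a i.1 * (d i.1 i.2) ^ 2)
      (b i.1 * (d i.1 i.2) ^ 3) := by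
    rintro ⟨j, i⟩
    obtain ⟨M, i1, i2, hM⟩ := h j
    exact ⟨M, i1, i2, hM.twist (hd0 j i)⟩
  obtain ⟨C, hC, hmain⟩ := moments hI hN ((j : J) × Fin (m j)) (fun i => F i.1)
    (fun i => a i.1 * (d i.1 i.2) ^ 2) (fun i => b i.1 * (d i.1 i.2) ^ 3) hadm k
  refine ⟨C, hC, fun X hX => ?_⟩
  refine le_trans (Finset.sum_le_sum fun D hD => ?_) (hmain X hX)
  have hD0 : Squarefree D := squarefree_of_mem hD
  rw [Fintype.prod_sigma]
  refine Finset.prod_le_prod (fun j _ => by positivity) fun j _ => ?_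
  have hDj : (D : F j) ≠ 0 := by exact_mod_cast hD0.ne_zero
  obtain ⟨M, i1, i2, hM⟩ := id (h j)
  have h5 : 4 * ((a j : F j) * (D : F j) ^ 2) ^ 3 + 27 * ((b j : F j) * (D : F j) ^ 3) ^ 2 ≠ 0 :=
    Pool.Agent.Q193.ESG.disc_ne (Pool.Agent.Q161.ESG.irrF (twF hDj hM.noroot))
  have h4 := t_mqr (F j) (N j) (hG j) (h2 j) (m j) (fun i => (d j i : F j))
    (fun i => by exact_mod_cast hd0 j i) (hd j) _ _ h5
  rw [Finset.prod_pow]
  refine pow_le_pow_left₀ (by positivity) ?_ k
  refine le_trans (pow_le_pow_right₀ one_le_two h4) ?_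
  rw [← Finset.prod_pow_eq_pow_sum]
  refine Finset.prod_le_prod (fun i _ => by positivity) fun i _ => ?_
  have h6 := rank_le hI hN (hadm ⟨j, i⟩) hD0
  have e1 : (a j : F j) * (D : F j) ^ 2 * (d j i : F j) ^ 2 =
      ((a j * d j i ^ 2 : 𝓞 (F j)) : F j) * (D : F j) ^ 2 := by
    push_cast
    ring
  have e2 : (b j : F j) * (D : F j) ^ 3 * (d j i : F j) ^ 3 =
      ((b j * d j i ^ 3 : 𝓞 (F j)) : F j) * (D : F j) ^ 3 := by
    push_cast
    ring
  rw [e1, e2]
  exact_mod_cast h6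

end main

end Pool.Agent.Q161.ESF
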