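import Mathlib

/-!
# The 2-Selmer group and the Tate-Shafarevich group of an elliptic curve over a number field
-/

set_option autoImplicit false

namespace Pool.Agent.Q161.ESF

open WeierstrassCurve NumberField IsDedekindDomain

open scoped Classical

section field

variable {F : Type} [Field F]

/-- the absolute Galois group of `F` -/
abbrev GF (F : Type) [Field F] : Type := AlgebraicClosure F ≃ₐ[F] AlgebraicClosure F

/-- the points over the field `L` -/
abbrev Pt (W : WeierstrassCurve F) (L : Type) [Field L] [Algebra F L] : Type :=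
  (W.baseChange L).toAffine.Point

/-- the action of a homomorphism of fields on the points -/
noncomputable def act (W : WeierstrassCurve F) {L M : Type} [Field L] [Field M] [Algebra F L]
    [Algebra F M] (φ : L →ₐ[F] M) : Pt W L →+ Pt W M :=
  WeierstrassCurve.Affine.Point.map φ

/-- continuous (locally constant) cocycles -/
def IsCoc (W : WeierstrassCurve F) (f : GF F → Pt W (AlgebraicClosure F)) : Prop :=
  IsLocallyConstant f ∧ ∀ σ τ, f (σ * τ) = f σ + act W σ.toAlgHom (f τ)

/-- coboundaries -/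
def IsCob (W : WeierstrassCurve F) (f : GF F → Pt W (AlgebraicClosure F)) : Prop :=
  ∃ P, ∀ σ, f σ = act W σ.toAlgHom P - P

/-- the restriction of the cocycle to the absolute Galois group of the completion `Fv` is a coboundary -/
def LocTriv (W : WeierstrassCurve F) (Fv : Type) [Field Fv] [Algebra F Fv]
    (f : GF F → Pt W (AlgebraicClosure F)) : Prop :=
  ∀ ι : AlgebraicClosure F →ₐ[F] AlgebraicClosure Fv, ∃ P : Pt W (AlgebraicClosure Fv),
    ∀ (τ : AlgebraicClosure Fv ≃ₐ[Fv] AlgebraicClosure Fv) (σ : GF F),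
      (τ.toAlgHom.restrictScalars F).comp ι = ι.comp σ.toAlgHom →
      act W ι (f σ) = act W (τ.toAlgHom.restrictScalars F) P - P

theorem LocTriv.zero (W : WeierstrassCurve F) (Fv : Type) [Field Fv] [Algebra F Fv] :
    LocTriv W Fv 0 := fun ι => ⟨0, fun τ σ _ => by simp⟩

theorem LocTriv.add {W : WeierstrassCurve F} {Fv : Type} [Field Fv] [Algebra F Fv]
    {f g : GF F → Pt W (AlgebraicClosure F)} (hf : LocTriv W Fv f) (hg : LocTriv W Fv g) :
    LocTriv W Fv (f + g) := by
  intro ι
  obtain ⟨P, hP⟩ := hf ι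
  obtain ⟨Q, hQ⟩ := hg ι
  refine ⟨P + Q, fun τ σ h => ?_⟩
  simp only [Pi.add_apply, map_add, hP τ σ h, hQ τ σ h]
  abel

theorem LocTriv.neg {W : WeierstrassCurve F} {Fv : Type} [Field Fv] [Algebra F Fv]
    {f : GF F → Pt W (AlgebraicClosure F)} (hf : LocTriv W Fv f) : LocTriv W Fv (-f) := by
  intro ι
  obtain ⟨P, hP⟩ := hf ι
  refine ⟨-P, fun τ σ h => ?_⟩
  simp only [Pi.neg_apply, map_neg, hP τ σ h]
  abel

/-- the coboundaries -/
noncomputable def cob (W : WeierstrassCurve F) : AddSubgroup (GF F → Pt W (AlgebraicClosure F)) where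
  carrier := {f | IsCob W f}
  zero_mem' := ⟨0, fun σ => by simp⟩
  add_mem' := by
    rintro f g ⟨P, hP⟩ ⟨Q, hQ⟩
    refine ⟨P + Q, fun σ => ?_⟩
    simp only [Pi.add_apply, map_add, hP, hQ]
    abel
  neg_mem' := by
    rintro f ⟨P, hP⟩
    refine ⟨-P, fun σ => ?_⟩
    simp only [Pi.neg_apply, map_neg, hP]
    abel

/-- the coboundaries of the points `T` with `2 T = 0` -/
noncomputable def cobT (W : WeierstrassCurve F) : AddSubgroup (GF F → Pt W (AlgebraicClosure F)) where
  carrier := {f | ∃ T : Pt W (AlgebraicClosure F), T + T = 0 ∧ ∀ σ, f σ = act W σ.toAlgHom T - T}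
  zero_mem' := ⟨0, by simp, fun σ => by simp⟩
  add_mem' := by
    rintro f g ⟨T, hT, hf⟩ ⟨U, hU, hg⟩
    refine ⟨T + U, ?_, fun σ => ?_⟩
    · have e : T + U + (T + U) = (T + T) + (U + U) := by abel
      rw [e, hT, hU, add_zero]
    · simp only [Pi.add_apply, hf, hg, map_add]
      abel
  neg_mem' := by
    rintro f ⟨T, hT, hf⟩
    refine ⟨-T, ?_, fun σ => ?_⟩
    · have e : -T + -T = -(T + T) := by abel
      rw [e, hT, neg_zero]
    · simp only [Pi.neg_apply, hf, map_neg]
      abel

end field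

section number

variable {F : Type} [Field F] [NumberField F]

/-- trivial at all places: the completions at the maximal ideals of the ring of integers and at the
archimedean places -/
def EvLoc (W : WeierstrassCurve F) (f : GF F → Pt W (AlgebraicClosure F)) : Prop :=
  (∀ v : HeightOneSpectrum (𝓞 F), LocTriv W (v.adicCompletion F) f) ∧
    ∀ v : InfinitePlace F, LocTriv W v.Completion f

theorem EvLoc.zero (W : WeierstrassCurve F) : EvLoc W 0 :=
  ⟨fun _ => LocTriv.zero W _, fun _ => LocTriv.zero W _⟩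

theorem EvLoc.add {W : WeierstrassCurve F} {f g : GF F → Pt W (AlgebraicClosure F)} (hf : EvLoc W f)
    (hg : EvLoc W g) : EvLoc W (f + g) :=
  ⟨fun v => (hf.1 v).add (hg.1 v), fun v => (hf.2 v).add (hg.2 v)⟩

theorem EvLoc.neg {W : WeierstrassCurve F} {f : GF F → Pt W (AlgebraicClosure F)} (hf : EvLoc W f) :
    EvLoc W (-f) := ⟨fun v => (hf.1 v).neg, fun v => (hf.2 v).neg⟩

/-- the cocycles that are trivial at all places -/
noncomputable def shaCoc (W : WeierstrassCurve F) :
    AddSubgroup (GF F → Pt W (AlgebraicClosure F)) where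
  carrier := {f | IsCoc W f ∧ EvLoc W f}
  zero_mem' := ⟨⟨IsLocallyConstant.const _, fun σ τ => by simp⟩, EvLoc.zero W⟩
  add_mem' := by
    rintro f g ⟨⟨hf1, hf2⟩, hf3⟩ ⟨⟨hg1, hg2⟩, hg3⟩
    refine ⟨⟨hf1.add hg1, fun σ τ => ?_⟩, hf3.add hg3⟩
    simp only [Pi.add_apply, hf2, hg2, map_add]
    abel
  neg_mem' := by
    rintro f ⟨⟨hf1, hf2⟩, hf3⟩
    refine ⟨⟨hf1.neg, fun σ τ => ?_⟩, hf3.neg⟩
    simp only [Pi.neg_apply, hf2, map_neg]
    abel

/-- the Tate-Shafarevich group of `W` over `F` -/
abbrev Sha (W : WeierstrassCurve F) : Type := shaCoc W ⧸ (cob W).addSubgroupOf (shaCoc W)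

/-- the 2-Selmer cocycles: continuous cocycles with values in the points of order dividing two which are
coboundaries in the group of all points at all places -/
noncomputable def selC (W : WeierstrassCurve F) :
    AddSubgroup (GF F → Pt W (AlgebraicClosure F)) where
  carrier := {f | (IsCoc W f ∧ EvLoc W f) ∧ ∀ σ, f σ + f σ = 0}
  zero_mem' := ⟨(shaCoc W).zero_mem, fun σ => by simp⟩
  add_mem' := by
    rintro f g ⟨hf, hf2⟩ ⟨hg, hg2⟩
    refine ⟨(shaCoc W).add_mem hf hg, fun σ => ?_⟩
    have e : (f + g) σ + (f + g) σ = (f σ + f σ) + (g σ + g σ) := by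
      simp only [Pi.add_apply]
      abel
    rw [e, hf2, hg2, add_zero]
  neg_mem' := by
    rintro f ⟨hf, hf2⟩
    refine ⟨(shaCoc W).neg_mem hf, fun σ => ?_⟩
    have e : (-f) σ + (-f) σ = -(f σ + f σ) := by
      simp only [Pi.neg_apply]
      abel
    rw [e, hf2, neg_zero]

/-- the 2-Selmer group of `W` over `F` -/
abbrev Sel2 (W : WeierstrassCurve F) : Type := selC W ⧸ (cobT W).addSubgroupOf (selC W)

end number

end Pool.Agent.Q161.ESF
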