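import Pool.Agent.Q161.ESG.GoalF
import Pool.Agent.Q153.ESF.K90F
import Pool.Agent.Q124.ESF.KDF
import Pool.Agent.Q124.ESF.KIF
import Pool.Agent.Q129.ESF.KLF
import Pool.Agent.Q182.ESF.Apx
import Pool.Agent.Q224.ESF.LCG
import Pool.Agent.Q153.ESF.GRPF
import Pool.Agent.Q224.ESF.SHAF

/-! # Project ESF: 2-Selmer groups over the Galois number fields of odd degree -/

set_option autoImplicit false

namespace Pool.Agent.Q161.ESF

open Polynomial NumberField IsDedekindDomain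

open scoped Classical

open Pool.Agent.Q161.ESM
open Pool.Agent.Q161.ESG (shF t_cntg t_vg t_kxn t_dat t_semf exists_LF irrF twF degF)

theorem t_lcg : S_LCG := Pool.Agent.Q224.ESF.lcg

theorem t_grpf : S_GRPF := Pool.Agent.Q153.ESF.grpf

theorem t_shaf (h : S_INF) : S_SHAF :=
  Pool.Agent.Q224.ESF.shaf (Pool.Agent.Q124.ESF.kdf Pool.Agent.Q153.ESF.k90f) Pool.Agent.Q124.ESF.kif
    Pool.Agent.Q129.ESF.klf h Pool.Agent.Q182.ESF.apx

theorem datF {F L : Type} [Field F] [NumberField F] [Field L] [NumberField L] [Algebra F L]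
    {a b : 𝓞 F} {th : 𝓞 L} (hc : CubF (a : F) (b : F) L (th : L)) (K : Type) [Field K]
    [NumberField K] [IsGalois ℚ K] (hK : Nonempty (L →+* K)) : Dat K (algebraMap F L) th := by
  refine t_dat F L (X ^ 3 + C (a : F) * X + C (b : F)) th hc.irr ?_ ?_ ?_ K hK
  · simpa only [map_add, map_mul, map_pow, aeval_X, aeval_C] using hc.root
  · rw [hc.deg, degF]
  · rw [degF]; exact ⟨1, rfl⟩

/-- the set of the `δ` which satisfy the local conditions is finite, modulo squares -/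
theorem bound_one {F L : Type} [Field F] [NumberField F] [Field L] [NumberField L] [Algebra F L]
    {a b : 𝓞 F} {th : 𝓞 L} (hc : CubF (a : F) (b : F) L (th : L)) {K : Type} [Field K]
    [NumberField K] [IsGalois ℚ K] (hK : Nonempty (L →+* K)) (V : Type) [AddCommGroup V] [Fintype V]
    [DistribMulAction (K ≃ₐ[ℚ] K) V] (cd : V →+ (Unit → (L →+* K) → ZMod 2))
    (hcd : VB (C := Unit) (L := fun _ => L) (Bs := fun _ => F) (fun _ => algebraMap F L) cd)
    (hV : Semi (K ≃ₐ[ℚ] K) V) (B : ℕ) (hB : B ≠ 0) (D : ℤ) (hD : Squarefree D) :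
    ∃ N : ℕ, ∀ T : Finset L, (∀ δ ∈ T, δ ≠ 0 ∧ Gd1 K (algebraMap F L) th B D δ) →
      (∀ δ ∈ T, ∀ δ' ∈ T, δ ≠ δ' → ¬ IsSquare (δ * δ')) → T.card ≤ N := by
  obtain ⟨C0, hC0, hmain⟩ := t_cntg Unit (fun _ => L) (fun _ => F) K (fun _ => algebraMap F L)
    (fun _ => th) (fun _ => datF hc K hK) V cd hcd hV B hB
  have hD1 : (1 : ℝ) ≤ (|D| : ℤ) := by exact_mod_cast Int.one_le_abs hD.ne_zero
  refine ⟨⌊C0 * ((|D| : ℤ) : ℝ)⌋₊, fun T hT hT2 => ?_⟩
  have h1 := hmain (fun _ D' => if D' = D then T else ∅) (by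
    intro _ D' δ hδ
    by_cases hDD : D' = D
    · simp only [hDD, if_true] at hδ ⊢
      exact hT δ hδ
    · simp only [hDD, if_false, Finset.notMem_empty] at hδ) (by
    intro _ D' δ hδ δ' hδ' hne
    by_cases hDD : D' = D
    · simp only [hDD, if_true] at hδ hδ'
      exact hT2 δ hδ δ' hδ' hne
    · simp only [hDD, if_false, Finset.notMem_empty] at hδ) (|D| : ℤ) hD1
  apply Nat.le_floor
  refine le_trans ?_ h1
  have hmem : D ∈ (Finset.Icc (-⌊((|D| : ℤ) : ℝ)⌋) ⌊((|D| : ℤ) : ℝ)⌋).filter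
      (fun D : ℤ => Squarefree D) := by
    rw [Finset.mem_filter, Int.floor_intCast, Finset.mem_Icc]
    exact ⟨⟨neg_abs_le D, le_abs_self D⟩, hD⟩
  have h2 := Finset.single_le_sum (f := fun D' : ℤ => ∏ _c : Unit,
    (if D' = D then T else (∅ : Finset L)).card) (fun _ _ => Nat.zero_le _) hmem
  simp only [if_true, Finset.prod_const, Finset.card_univ, Fintype.card_unit, pow_one] at h2
  exact_mod_cast le_trans h2 (le_of_eq (by simp))

theorem exists_LC (F : Type) [Field F] [NumberField F] (a b : 𝓞 F)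
    (h : ∀ x : F, x ^ 3 + (a : F) * x + (b : F) ≠ 0) :
    ∃ (L : Type) (_ : Field L) (_ : NumberField L) (_ : Algebra F L) (th : 𝓞 L),
      CubF (a : F) (b : F) L (th : L) := by
  obtain ⟨L, i1, i2, i3, th, hth, hdeg⟩ := exists_LF F a b (irrF h)
  exact ⟨L, i1, i2, i3, th, irrF h, hth, hdeg⟩

/-- the 2-Selmer groups of the twists are finite -/
theorem fin_sel (hI : S_INF) (F : Type) [Field F] [NumberField F] (hG : IsGalois ℚ F)
    (hodd : Odd (Module.finrank ℚ F)) (a b : 𝓞 F)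
    (h : ∀ x : F, x ^ 3 + (a : F) * x + (b : F) ≠ 0) (D : ℤ) (hD : Squarefree D) :
    Finite (Sel2 (shF ((a : F) * (D : F) ^ 2) ((b : F) * (D : F) ^ 3))) := by
  obtain ⟨L, i1, i2, i3, th, hc⟩ := exists_LC F a b h
  obtain ⟨K, iK1, iK2, iK3, hemb⟩ := t_kxn Unit (fun _ => L)
  obtain ⟨V, v1, v2, v3, cd, hcd⟩ := t_vg Unit (fun _ => L) (fun _ => F) K (fun _ => algebraMap F L)
  have hsemi : Semi (K ≃ₐ[ℚ] K) V := t_semf Unit (fun _ => F) (fun _ => L) (fun _ => hG)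
    (fun _ => hodd) (fun _ => hc.deg) K hemb V cd hcd
  obtain ⟨B, hB0, hB⟩ := t_lcg F L a b th hc K (hemb ())
  obtain ⟨N, hN⟩ := bound_one hc (hemb ()) V cd hcd hsemi B hB0 D hD
  obtain ⟨Φ, hΦ1, hΦ2⟩ := t_shaf hI F L a b th hc D hD.ne_zero
  have hinj : Function.Injective Φ := fun x y hxy => hΦ2 x y (by
    rw [hxy]
    exact ⟨Φ y, rfl⟩)
  by_contra hinf
  rw [not_finite_iff_infinite] at hinf
  obtain ⟨T, hT⟩ := Infinite.exists_subset_card_eq
    (Sel2 (shF ((a : F) * (D : F) ^ 2) ((b : F) * (D : F) ^ 3))) (N + 1)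
  have h1 := hN (T.image Φ) (by
    intro δ hδ
    obtain ⟨x, -, rfl⟩ := Finset.mem_image.1 hδ
    exact ⟨(hΦ1 x).1, hB D hD (Φ x) (hΦ1 x).1 (hΦ1 x).2⟩) (by
    intro δ hδ δ' hδ' hne hsq
    obtain ⟨x, -, rfl⟩ := Finset.mem_image.1 hδ
    obtain ⟨y, -, rfl⟩ := Finset.mem_image.1 hδ'
    exact hne (congrArg Φ (hΦ2 x y hsq)))
  rw [Finset.card_image_of_injective _ hinj, hT] at h1
  omega

/-- the joint moments of the 2-Selmer groups over odd Galois number fields -/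
theorem goalS (hI : S_INF) (J : Type) [Fintype J] (F : J → Type) [∀ j, Field (F j)]
    [∀ j, NumberField (F j)] (hG : ∀ j, IsGalois ℚ (F j)) (hodd : ∀ j, Odd (Module.finrank ℚ (F j)))
    (a b : (j : J) → 𝓞 (F j))
    (h : ∀ j, ∀ x : F j, x ^ 3 + (a j : F j) * x + (b j : F j) ≠ 0) :
    ∃ C0 : ℝ, 0 < C0 ∧ ∀ X : ℝ, 1 ≤ X →
      ((∑ D ∈ (Finset.Icc (-⌊X⌋) ⌊X⌋).filter (fun D : ℤ => Squarefree D),
        ∏ j, Nat.card (Sel2 (shF ((a j : F j) * (D : F j) ^ 2) ((b j : F j) * (D : F j) ^ 3))) : ℕ) :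
          ℝ) ≤ C0 * X := by
  choose L i1 i2 i3 th hc using fun j => exists_LC (F j) (a j) (b j) (h j)
  obtain ⟨K, iK1, iK2, iK3, hemb⟩ := t_kxn J L
  obtain ⟨V, v1, v2, v3, cd, hcd⟩ := t_vg J L F K (fun j => algebraMap (F j) (L j))
  have hsemi : Semi (K ≃ₐ[ℚ] K) V := t_semf J F L hG hodd (fun j => (hc j).deg) K hemb V cd hcd
  choose B hB0 hB using fun j => t_lcg (F j) (L j) (a j) (b j) (th j) (hc j) K (hemb j)
  obtain ⟨C0, hC0, hmain⟩ := t_cntg J L F K (fun j => algebraMap (F j) (L j)) th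
    (fun j => datF (hc j) K (hemb j)) V cd hcd hsemi
    (∏ j, B j) (Finset.prod_ne_zero_iff.2 fun j _ => hB0 j)
  have hΦ := fun (j : J) (D : ℤ) (hD : D ≠ 0) =>
    t_shaf hI (F j) (L j) (a j) (b j) (th j) (hc j) D hD
  have hfin : ∀ (j : J) (D : ℤ), Squarefree D →
      Finite (Sel2 (shF ((a j : F j) * (D : F j) ^ 2) ((b j : F j) * (D : F j) ^ 3))) := fun j D hD =>
    fin_sel hI (F j) (hG j) (hodd j) (a j) (b j) (h j) D hD
  let Φ : (j : J) → (D : ℤ) → (hD : D ≠ 0) →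
      Sel2 (shF ((a j : F j) * (D : F j) ^ 2) ((b j : F j) * (D : F j) ^ 3)) → L j :=
    fun j D hD => (hΦ j D hD).choose
  have hΦs := fun (j : J) (D : ℤ) (hD : D ≠ 0) => (hΦ j D hD).choose_spec
  have hinj : ∀ (j : J) (D : ℤ) (hD : D ≠ 0), Function.Injective (Φ j D hD) := by
    intro j D hD x y hxy
    apply (hΦs j D hD).2
    change IsSquare (Φ j D hD x * Φ j D hD y)
    rw [hxy]
    exact ⟨Φ j D hD y, rfl⟩
  let Fs : (j : J) → ℤ → Finset (L j) := fun j D => if hD : Squarefree D then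
    (@Finset.univ _ (@Fintype.ofFinite _ (hfin j D hD))).image (Φ j D hD.ne_zero) else ∅
  refine ⟨C0, hC0, fun X hX => ?_⟩
  have hF := hmain Fs (by
    intro j D δ hδ
    by_cases hD : Squarefree D
    · simp only [Fs, dif_pos hD, Finset.mem_image] at hδ
      obtain ⟨x, -, rfl⟩ := hδ
      have h5 := (hΦs j D hD.ne_zero).1 x
      exact ⟨h5.1, Pool.Agent.Q96.ESG.gd1_mono (hB j D hD _ h5.1 h5.2)
        (Finset.dvd_prod_of_mem B (Finset.mem_univ j))⟩
    · simp only [Fs, dif_neg hD] at hδ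
      exact absurd hδ (Finset.notMem_empty _)) (by
    intro j D δ hδ δ' hδ' hne hsq
    by_cases hD : Squarefree D
    · simp only [Fs, dif_pos hD, Finset.mem_image] at hδ hδ'
      obtain ⟨x, -, rfl⟩ := hδ
      obtain ⟨y, -, rfl⟩ := hδ'
      exact hne (congrArg _ ((hΦs j D hD.ne_zero).2 x y hsq))
    · simp only [Fs, dif_neg hD] at hδ
      exact absurd hδ (Finset.notMem_empty _)) X hX
  refine le_trans (le_of_eq ?_) hF
  congr 1
  refine Finset.sum_congr rfl fun D hD => ?_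
  have hD0 : Squarefree D := (Finset.mem_filter.1 hD).2
  refine Finset.prod_congr rfl fun j _ => ?_
  simp only [Fs, dif_pos hD0]
  rw [Finset.card_image_of_injective _ (hinj j D hD0.ne_zero)]
  rw [@Nat.card_eq_fintype_card _ (@Fintype.ofFinite _ (hfin j D hD0))]
  rfl

end Pool.Agent.Q161.ESF
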