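import Pool.Agent.Q161.ESF.Stm7

/-!
# Project ESF (helper161), part 2: ALL number fields `F`

Until now the field `F` of definition of `E : y² = x³ + a x + b` was a Galois extension of `ℚ` of odd degree: this is only
used in `S_SEMF` (`Pool/Agent/Q121/ESG/SEMF.lean`), the semisimplicity of the Galois module `V = ∏_τ E^τ[2]` over all
embeddings `τ` of `F`.  Here: semisimplicity for arbitrary number fields `F` under the condition `Adm` (which holds
for almost all `E` over `F`, and for all `E` without rational 2-torsion if `F` is Galois of odd degree).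
-/

set_option autoImplicit false

namespace Pool.Agent.Q161.ESF

open WeierstrassCurve Polynomial NumberField IsDedekindDomain Finset

open scoped Classical

open Pool.Agent.Q161.ESG (shF)
open Pool.Agent.Q161.ESM

/-- JOB SEMA. An abstract criterion for semisimplicity (finite groups).
`V` = the functions `I → 𝔽₂` with sum zero over each block `p⁻¹(t)`, `t ∈ T`; every block has three elements.
Proof.  Notation: for `g ∈ N` and `t ∈ T` let `g` act on the block of `t` (three points).  `N` is transitive on every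
block, so some `h ∈ N` acts on the block of `t` as a 3-cycle (transitive subgroups of `S_3` contain the 3-cycles).  Let
`t ~ t'` if for all `g ∈ N`: `g` is trivial on the block of `t` iff it is trivial on the block of `t'`.  This is an
equivalence relation, `G`-invariant as `N` is normal.
(1) If not `t ~ t'` there is a `g ∈ N` which is trivial on the block of `t'` and a 3-cycle on the block of `t`.  First
case: `b ∈ N` trivial on `t'`, nontrivial on `t`: if `b` is a transposition on `t` replace it by the commutator of `b` and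
`h` (`h` a 3-cycle on `t`).  Second case: `g` trivial on `t`, nontrivial on `t'`; by the first case (exchange `t, t'`) let `g` be a
3-cycle on `t'`; `h` a 3-cycle on `t`: if `h` is trivial on `t'` take `h`, if `h` is a 3-cycle on `t'` take `h g` or `h g²`, if it is a
transposition on `t'` take `h²`.  (Finite check in `Equiv.Perm (Fin 3)`, `decide`.)
(2) By Maschke's theorem `S_MSK` (proved: `Pool.Agent.Q121.ESG.msk`; for subgroups of odd index, which need not be
normal) it suffices that `V` is semisimple for `H` = the preimage in `G` of a Sylow 2-subgroup of `G/N` (`H ⊇ N`).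
By `S_SUMG` (proved: `Pool.Agent.Q166.ESG.sumg`) it suffices to consider the elements `V_O` of `V` which are zero outside
the blocks of one `H`-orbit `O` in `T`; we show that it is simple, i.e. the only `H`-stable subgroups are `0` and `V_O`.
(3) Different `t, t' ∈ O` are never equivalent: suppose `t ~ t'`, `t ≠ t'`, `g t = t'`, `g ∈ H`.  Let `C` be the class of `t` in
`T`; `g C = C`; some power `g^(2^k)` is in `N`, so it is trivial on `C` (`N` is trivial on `T`); let `k` be minimal such that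
`g^(2^k)` is trivial on `C`; `k ≥ 1`; `σ = g^(2^(k-1))` moves some `u ∈ C`, and `σ σ u = u`, `σ u ~ u`.  This contradicts the
hypothesis for `σ, u`.
(4) Let `W ⊆ V_O` be `H`-stable, `0 ≠ w ∈ W`, `w` nonzero on the block of `t ∈ O`.  For `t' ∈ O`, `t' ≠ t`, let `g` be as in (1);
replace `w` by `w + g w`: zero on the block of `t'`, still nonzero on the block of `t` (a 3-cycle fixes no nonzero
function with sum zero on three points), and zero where `w` was zero on a whole block (`N` preserves the blocks).  So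
there is a `w ∈ W`, `w ≠ 0`, which is zero outside the block of `t`.  `N` is transitive on the three nonzero such functions,
and `H` is transitive on `O`, so `W = V_O`.  (Compare `simple3` in `Pool/Agent/Q121/ESG/SEMF.lean`.) -/
def S_SEMA : Prop := ∀ (G I T V : Type) [Group G] [Finite G] [Fintype I] [Fintype T] [MulAction G I]
  [MulAction G T] [AddCommGroup V] [Finite V] [DistribMulAction G V] (p : I → T)
  (cd : V →+ (I → ZMod 2)) (N : Subgroup G),
  (∀ (g : G) (i : I), p (g • i) = g • p i) →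
  (∀ t : T, (univ.filter (fun i => p i = t)).card = 3) →
  N.Normal → (∀ g ∈ N, ∀ t : T, g • t = t) → (∀ i j : I, p i = p j → ∃ g ∈ N, g • i = j) →
  (∀ (σ : G) (t : T), σ • t ≠ t → σ • σ • t = t →
    ∃ g ∈ N, (∀ i, p i = σ • t → g • i = i) ∧ ∃ i, p i = t ∧ g • i ≠ i) →
  Function.Injective cd →
  (∀ e : I → ZMod 2, (∃ v, cd v = e) ↔ ∀ t, ∑ i ∈ univ.filter (fun i => p i = t), e i = 0) →
  (∀ (g : G) (v : V) (i : I), cd (g • v) (g • i) = cd v i) → Semi G V

/-- the conjugate `x³ + τ(a) x + τ(b)` of the polynomial -/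
noncomputable def cj {F M : Type} [Field F] [NumberField F] [Field M] (a b : 𝓞 F) (τ : F →+* M) :
    M[X] := X ^ 3 + C (τ (a : F)) * X + C (τ (b : F))

/-- `M` is a Galois extension of `ℚ` which contains `F`; for no embedding `τ` of `F` in `M` the conjugate `f^τ` of
`f = x³ + a x + b` has a zero in `M`, and if `τ` and `σ τ` are different embeddings which are exchanged by `σ` then `f^τ`
has no zero in the cubic extension of `M` generated by a zero of `f^(σ τ)` -/
structure Adm {F : Type} [Field F] [NumberField F] (a b : 𝓞 F) (M : Type) [Field M] [NumberField M] :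
    Prop where
  gal : IsGalois ℚ M
  emb : Nonempty (F →+* M)
  irr : ∀ (τ : F →+* M) (x : M), x ^ 3 + τ (a : F) * x + τ (b : F) ≠ 0
  dist : ∀ (σ : M ≃+* M) (τ : F →+* M), (σ : M →+* M).comp τ ≠ τ →
    (σ : M →+* M).comp ((σ : M →+* M).comp τ) = τ →
    ∀ x : AdjoinRoot (cj a b ((σ : M →+* M).comp τ)),
      x ^ 3 + AdjoinRoot.of _ (τ (a : F)) * x + AdjoinRoot.of _ (τ (b : F)) ≠ 0

/-- JOB KCD. The conditions of `S_SEMA` for `G = Gal(K/ℚ)`.
Proof.  Let `φ : M → K`, `N = Gal(K/φ M)`, normal.  Every embedding `τ : F → K` is `φ ∘ τ'`, `τ' : F → M` (`M` contains `F` and is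
normal over `ℚ`; compare `range_eq`, `exists_aut`, `card_block` in `Pool/Agent/Q121/ESG/SEMF.lean`), so `N` is trivial on the
embeddings of `F`.  `N` is transitive on the `ι` above `τ`: the `ι θ` are the zeros of `τ(f) = φ(f^τ')`, which is irreducible
over `φ M` (a cubic polynomial without zeros).  Last condition: `σ` restricts to an automorphism `σ'` of `M` (`φ σ' = σ φ`),
which exchanges `τ'` and `σ' τ'`.  Let `ι0` be above `σ τ`, `y = ι0 θ`, `S` = the stabilizer of `y` in `N` `= Gal(K/φM(y))`.  If `S` had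
a fixed point `ι` above `τ` then `ι θ ∈ φM(y) ≅ AdjoinRoot (f^(σ' τ'))` would be a zero of `φ(f^τ')`.  So `S` has no fixed point on
the three `ι` above `τ`, and so it contains an `h` which permutes them cyclically (subgroups of `S_3`).  `h` fixes
`ι0`, so `h²` is trivial on the three embeddings above `σ τ`, and it is a 3-cycle on those above `τ`; `g = h²`. -/
def S_KCD : Prop := ∀ (F : Type) [Field F] [NumberField F] (a b : 𝓞 F) (M : Type) [Field M]
  [NumberField M], Adm a b M → ∀ (L : Type) [Field L] [NumberField L] [Algebra F L] (th : 𝓞 L),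
  CubF (a : F) (b : F) L (th : L) → ∀ (K : Type) [Field K] [NumberField K] [IsGalois ℚ K],
  Nonempty (L →+* K) → Nonempty (M →+* K) →
  ∃ N : Subgroup (K ≃ₐ[ℚ] K), N.Normal ∧ (∀ g ∈ N, ∀ τ : F →+* K, cp g τ = τ) ∧
    (∀ ι ι' : L →+* K, ι.comp (algebraMap F L) = ι'.comp (algebraMap F L) → ∃ g ∈ N, cp g ι = ι') ∧
    ∀ (σ : K ≃ₐ[ℚ] K) (τ : F →+* K), cp σ τ ≠ τ → cp σ (cp σ τ) = τ →
      ∃ g ∈ N, (∀ ι : L →+* K, ι.comp (algebraMap F L) = cp σ τ → cp g ι = ι) ∧
        ∃ ι : L →+* K, ι.comp (algebraMap F L) = τ ∧ cp g ι ≠ ι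

/-- JOB SEMN. Semisimplicity over all number fields (from `S_SEMA`, `S_KCD`; `S_SUMG` is proved:
`Pool.Agent.Q166.ESG.sumg`).
Proof.  As in `Pool/Agent/Q121/ESG/SEMF.lean` reduce to the subgroups `U_c` (coordinates zero outside `c`; `semi_sub`,
`actOn` there); then `S_SEMA` with `I = (L c →+* K)`, `T = (F c →+* K)`, the actions `cp`, `p ι = ι.comp (algebraMap ..)`
(blocks of three elements: `card_block` there), and `S_KCD`. -/
def S_SEMN : Prop := ∀ (C : Type) [Fintype C] (F L : C → Type) [∀ c, Field (F c)]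
  [∀ c, NumberField (F c)] [∀ c, Field (L c)] [∀ c, NumberField (L c)] [∀ c, Algebra (F c) (L c)]
  (a b : (c : C) → 𝓞 (F c)) (th : (c : C) → 𝓞 (L c)),
  (∀ c, CubF (a c : F c) (b c : F c) (L c) (th c : L c)) →
  ∀ (M : C → Type) [∀ c, Field (M c)] [∀ c, NumberField (M c)], (∀ c, Adm (a c) (b c) (M c)) →
  ∀ (K : Type) [Field K] [NumberField K] [IsGalois ℚ K],
  (∀ c, Nonempty (L c →+* K)) → (∀ c, Nonempty (M c →+* K)) → ∀ (V : Type) [AddCommGroup V] [Finite V]
  [DistribMulAction (K ≃ₐ[ℚ] K) V] (cd : V →+ ((c : C) → (L c →+* K) → ZMod 2)),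
  VB (fun c => algebraMap (F c) (L c)) cd → Semi (K ≃ₐ[ℚ] K) V

/-! ## Almost all curves satisfy `Adm` -/

/-- JOB SPLM. Primes of degree one.
Proof.  `M = ℚ(α)`, `α` integral with minimal polynomial `g ∈ ℤ[X]`; infinitely many primes `p` divide some value `g(n) ≠ 0`
(Schur: otherwise consider `g(g(0)² p_1 ... p_r n ..)`, or find it in Mathlib or in our library); for `p` not dividing
the index `[𝓞 M : ℤ[α]]` (or a nonzero integer `c` with `c 𝓞 M ⊆ ℤ[α]`) the homomorphism `ℤ[α] → ZMod p`, `α ↦ n`, extends to `𝓞 M`: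
`x ↦ (c x)/c`. -/
def S_SPLM : Prop := ∀ (M : Type) [Field M] [NumberField M] (B : ℕ),
  ∃ p : ℕ, B < p ∧ p.Prime ∧ Nonempty (𝓞 M →+* ZMod p)

/-- JOB LOC3. A local criterion.
Proof.  Let `P` be the kernel of `ψ`, `M_P` the completion (`HeightOneSpectrum.adicCompletion`; residue field `ZMod p`).  By
Hensel's lemma `g = x³ + A' x + B'` has a zero `y` in `M_P`, so there is a homomorphism `M[X]/(g) → M_P` over `M`, `X ↦ y`.  The image
of `x` is integral, and its residue class is a zero of `x³ + ψ(A) x + ψ(B)` in `ZMod p`.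
Another proof: `z = x` is integral over `𝓞 M`.  If `g` is irreducible over `M`, let `Q` be the prime ideal of the ring of
integers of `M(y)` above `P` and above the zero of `g` modulo `p` (simple, so the residue field is again `ZMod p`:
Dedekind-Kummer `KummerDedekind`), etc. -/
def S_LOC3 : Prop := ∀ (M : Type) [Field M] [NumberField M] (p : ℕ) [Fact p.Prime]
  (ψ : 𝓞 M →+* ZMod p) (A B A' B' : 𝓞 M), (∀ x : ZMod p, x ^ 3 + ψ A * x + ψ B ≠ 0) →
  (∃ x : ZMod p, x ^ 3 + ψ A' * x + ψ B' = 0 ∧ 3 * x ^ 2 + ψ A' ≠ 0) →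
  ∀ x : AdjoinRoot (X ^ 3 + C (A' : M) * X + C (B' : M) : M[X]),
    x ^ 3 + AdjoinRoot.of _ (A : M) * x + AdjoinRoot.of _ (B : M) ≠ 0

/-- JOB CNT3. Counting polynomials modulo `p`.
Proof.  Let `N_i` be the number of the pairs `(a, b)` such that `x³ + a x + b` has exactly `i` different zeros.  The number of
the pairs `(f, x)`, `x` a zero of `f`, is `p²` (`b` is determined by `a` and `x`), so `N_1 + 2 N_2 + 3 N_3 = p²`; the number of the
`(f, x, y)`, `x ≠ y` zeros of `f`, is `p (p - 1)` (`a, b` are determined by `x, y`: the third zero is `-x - y`), so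
`2 N_2 + 6 N_3 = p (p - 1)`.  `N_0 = p² - N_1 - N_2 - N_3 = N_2 + 2 N_3 ≥ p (p - 1)/3`.  Second part: for `x ∈ ZMod p` there are `p - 1`
(`p ≥ 5`) pairs `(a, b)` with `f(x) = 0`, `3 x² + a ≠ 0`; and each `f` has at most three zeros. -/
def S_CNT3 : Prop := ∀ (p : ℕ) [Fact p.Prime], 5 ≤ p →
  p * (p - 1) ≤ 3 * Nat.card {c : ZMod p × ZMod p // ∀ x : ZMod p, x ^ 3 + c.1 * x + c.2 ≠ 0} ∧
  p * (p - 1) ≤ 3 * Nat.card {c : ZMod p × ZMod p // ∃ x : ZMod p, x ^ 3 + c.1 * x + c.2 = 0 ∧
    3 * x ^ 2 + c.1 ≠ 0}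

section cnt

variable {F : Type} [Field F] [NumberField F]

/-- the classes of the integers of `F` modulo `q` -/
abbrev Cl (F : Type) [Field F] [NumberField F] (q : ℕ) : Type := 𝓞 F ⧸ Ideal.span {(q : 𝓞 F)}

/-- `P` has the period `q` -/
def Per (q : ℕ) (P : 𝓞 F → 𝓞 F → Prop) : Prop := ∀ a b a' b' : 𝓞 F, (q : 𝓞 F) ∣ a - a' →
  (q : 𝓞 F) ∣ b - b' → P a b → P a' b'

/-- the number of the classes modulo `q` with the property `P` -/
noncomputable def cnt (q : ℕ) (P : 𝓞 F → 𝓞 F → Prop) : ℕ :=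
  Nat.card {z : Cl F q × Cl F q // ∀ a b : 𝓞 F,
    z = (Ideal.Quotient.mk (Ideal.span {(q : 𝓞 F)}) a, Ideal.Quotient.mk (Ideal.span {(q : 𝓞 F)}) b) →
      P a b}

/-- the polynomial has no zero modulo `p` -/
def Nz {M : Type} [Field M] [NumberField M] {p : ℕ} (ψ : 𝓞 M →+* ZMod p) (τ : F →+* M) (a b : 𝓞 F) :
    Prop :=
  ∀ x : ZMod p, x ^ 3 + ψ (RingOfIntegers.mapRingHom τ a) * x + ψ (RingOfIntegers.mapRingHom τ b) ≠ 0

/-- the polynomial has a simple zero modulo `p` -/
def Sz {M : Type} [Field M] [NumberField M] {p : ℕ} (ψ : 𝓞 M →+* ZMod p) (τ : F →+* M) (a b : 𝓞 F) :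
    Prop :=
  ∃ x : ZMod p, x ^ 3 + ψ (RingOfIntegers.mapRingHom τ a) * x + ψ (RingOfIntegers.mapRingHom τ b) = 0 ∧
    3 * x ^ 2 + ψ (RingOfIntegers.mapRingHom τ a) ≠ 0

end cnt

/-- JOB DEN. Counting classes: `q^(2n)` classes, `n = [F : ℚ]`, and the Chinese remainder theorem. -/
def S_DEN : Prop := ∀ (F : Type) [Field F] [NumberField F],
  (∀ q : ℕ, q ≠ 0 → cnt (F := F) q (fun _ _ => True) = q ^ (2 * Module.finrank ℚ F)) ∧
  (∀ (q : ℕ) (P : 𝓞 F → 𝓞 F → Prop), q ≠ 0 → Per q P →
    cnt q P + cnt q (fun a b => ¬ P a b) = q ^ (2 * Module.finrank ℚ F)) ∧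
  ∀ (q r : ℕ) (P Q : 𝓞 F → 𝓞 F → Prop), q ≠ 0 → r ≠ 0 → Nat.Coprime q r → Per q P → Per r Q →
    cnt (q * r) (fun a b => P a b ∧ Q a b) = cnt q P * cnt r Q

/-- JOB ONE. The proportion at one prime (from `S_CNT3`).
Proof.  First part: `ψ ∘ τ : 𝓞 F → ZMod p` is surjective with kernel containing `p`, so `(𝓞 F/p)² → (ZMod p)²` is surjective,
all fibres have the same order `p^(2n-2)`, and `p (p - 1)/3 ≥ p²/6`.  Second part: for large `p` `ψ ∘ τ` and `ψ ∘ τ'` are
different (`α ∈ 𝓞 F` with `τ α ≠ τ' α`; `ψ(τ α - τ' α) ≠ 0` if `p` does not divide the norm of `τ α - τ' α`), so their kernels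
are different maximal ideals (the homomorphism is determined by its kernel) and `𝓞 F → ZMod p × ZMod p` is surjective
(Chinese remainder theorem); `(p (p - 1)/3)² ≥ p⁴/36`. -/
def S_ONE : Prop := ∀ (F M : Type) [Field F] [NumberField F] [Field M] [NumberField M],
  (∀ (τ : F →+* M) (p : ℕ) [Fact p.Prime] (ψ : 𝓞 M →+* ZMod p), 5 ≤ p →
    Per p (Nz ψ τ) ∧ p ^ (2 * Module.finrank ℚ F) ≤ 6 * cnt p (Nz ψ τ)) ∧
  ∀ τ τ' : F →+* M, τ ≠ τ' → ∃ B : ℕ, ∀ (p : ℕ) [Fact p.Prime] (ψ : 𝓞 M →+* ZMod p), B < p →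
    Per p (fun a b => Nz ψ τ a b ∧ Sz ψ τ' a b) ∧
    p ^ (2 * Module.finrank ℚ F) ≤ 36 * cnt p (fun a b => Nz ψ τ a b ∧ Sz ψ τ' a b)

/-- JOB FULL. Almost all curves over every number field are admissible (from `S_SPLM`, `S_LOC3`, `S_DEN`, `S_ONE`).
Proof.  `M` = a Galois number field which contains `F` (`S_KXN`, proved: `Pool.Agent.Q161.ESG.t_kxn Unit (fun _ => F)` in
`Pool/Agent/Q161/ESG/AllG.lean`).  Let `τ ≠ τ'` be embeddings of `F` in `M`.  For a large prime `p` and `ψ : 𝓞 M → ZMod p`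
(`S_SPLM`) `(a, b)` is good at `(p, ψ)` for `(τ, τ')` if `Nz ψ τ a b ∧ Sz ψ τ' a b`.  For every pair `(τ, τ')`, `τ ≠ τ'`, choose `m`
primes, all different; by `S_ONE`, `S_DEN` the proportion of the classes modulo the product of these `m` primes which
are good at none of the primes is at most `(35/36)^m`, and `(35/36)^m` for every `τ` and `m` other primes with `Nz ψ τ`.
`q` = the product of all primes used; the proportion of the classes modulo `q` for which some pair, or some `τ`, has no
good prime is at most `2 n'^2 (35/36)^m ≤ ε` (`n'` = the number of embeddings, `m` large).  If `(a, b)` has good primes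
for all pairs and all `τ` then `Adm a b M`: `S_LOC3` for `A = τ a`, .. (`mapRingHom`), and a zero of `f^τ` in `M` is integral,
so its image under `ψ` is a zero in `ZMod p`. -/
def S_FULL : Prop := ∀ (F : Type) [Field F] [NumberField F] (ε : ℝ), 0 < ε →
  ∃ (q : ℕ) (R : Finset (Cl F q × Cl F q)), q ≠ 0 ∧
    (1 - ε) * (q : ℝ) ^ (2 * Module.finrank ℚ F) ≤ R.card ∧
    ∃ (M : Type) (_ : Field M) (_ : NumberField M), ∀ a b : 𝓞 F,
      (Ideal.Quotient.mk (Ideal.span {(q : 𝓞 F)}) a, Ideal.Quotient.mk (Ideal.span {(q : 𝓞 F)}) b) ∈ R →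
        Adm a b M

end Pool.Agent.Q161.ESF
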