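import Pool.Agent.Q161.ESF.Goal
import Pool.Agent.Q161.ESF.Stm8
import Pool.Agent.Q161.ESM.Cor

/-! # Project ESF: 2-Selmer groups over all number fields -/

set_option autoImplicit false

namespace Pool.Agent.Q161.ESF

open Polynomial NumberField IsDedekindDomain

open scoped Classical

open Pool.Agent.Q161.ESM
open Pool.Agent.Q161.ESG (shF t_cntg t_vg t_kxn t_dat irrF twF degF t_mqr t_mqd)

theorem eval₂_cj {F M S : Type} [Field F] [NumberField F] [Field M] [CommRing S] (a b : 𝓞 F)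
    (τ : F →+* M) (i : M →+* S) (y : S) :
    eval₂ i y (cj a b τ) = y ^ 3 + i (τ (a : F)) * y + i (τ (b : F)) := by
  simp only [cj, eval₂_add, eval₂_mul, eval₂_pow, eval₂_X, eval₂_C]

theorem Adm.noroot {F M : Type} [Field F] [NumberField F] [Field M] [NumberField M] {a b : 𝓞 F}
    (h : Adm a b M) (x : F) : x ^ 3 + (a : F) * x + (b : F) ≠ 0 := by
  obtain ⟨τ⟩ := h.emb
  intro h0
  apply h.irr τ (τ x)
  rw [← map_pow, ← map_mul, ← map_add, ← map_add, h0, map_zero]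

/-- the twists -/
theorem Adm.twist {F M : Type} [Field F] [NumberField F] [Field M] [NumberField M] {a b : 𝓞 F}
    (h : Adm a b M) {d : 𝓞 F} (hd : d ≠ 0) : Adm (a * d ^ 2) (b * d ^ 3) M := by
  have hdF : (d : F) ≠ 0 := by exact_mod_cast hd
  have hdM : ∀ τ : F →+* M, τ (d : F) ≠ 0 := fun τ => by
    rw [_root_.map_ne_zero]
    exact hdF
  refine ⟨h.gal, h.emb, fun τ x h0 => ?_, fun σ τ h1 h2 x h0 => ?_⟩
  · apply h.irr τ (x / τ (d : F))
    have hd1 := hdM τ
    push_cast at h0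
    simp only [map_mul, map_pow] at h0
    field_simp
    linear_combination h0
  · have hd1 := hdM τ
    have hd2 := hdM ((σ : M →+* M).comp τ)
    obtain ⟨τ', hτ'⟩ : ∃ τ', τ' = (σ : M →+* M).comp τ := ⟨_, rfl⟩
    rw [← hτ'] at hd2
    have h3 := h.dist σ τ h1 h2
    rw [← hτ'] at h3
    have key : ∀ x : AdjoinRoot (cj (a * d ^ 2) (b * d ^ 3) τ'),
        x ^ 3 + AdjoinRoot.of _ (τ ((a * d ^ 2 : 𝓞 F) : F)) * x +
          AdjoinRoot.of _ (τ ((b * d ^ 3 : 𝓞 F) : F)) ≠ 0 := by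
      intro x h0
      let χ : AdjoinRoot (cj (a * d ^ 2) (b * d ^ 3) τ') →+* AdjoinRoot (cj a b τ') :=
        AdjoinRoot.lift (AdjoinRoot.of (cj a b τ'))
          (AdjoinRoot.of (cj a b τ') (τ' (d : F)) * AdjoinRoot.root (cj a b τ')) (by
            have hr : (AdjoinRoot.root (cj a b τ')) ^ 3 + AdjoinRoot.of (cj a b τ') (τ' (a : F)) *
                AdjoinRoot.root (cj a b τ') + AdjoinRoot.of (cj a b τ') (τ' (b : F)) = 0 := by
              rw [← eval₂_cj]
              exact AdjoinRoot.eval₂_root (cj a b τ')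
            rw [eval₂_cj]
            push_cast
            simp only [map_mul, map_pow]
            linear_combination (AdjoinRoot.of (cj a b τ') (τ' (d : F))) ^ 3 * hr)
      have hχ : ∀ y : M, χ (AdjoinRoot.of _ y) = AdjoinRoot.of _ y := fun y => by
        simp only [χ, AdjoinRoot.lift_of]
      have h6 := congrArg χ h0
      rw [map_zero, map_add, map_add, map_mul, map_pow, hχ, hχ] at h6
      apply h3 (AdjoinRoot.of (cj a b τ') (τ (d : F))⁻¹ * χ x)
      push_cast at h6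
      simp only [map_mul, map_pow] at h6
      have h7 : AdjoinRoot.of (cj a b τ') (τ (d : F))⁻¹ * AdjoinRoot.of (cj a b τ') (τ (d : F)) =
          1 := by
        rw [← map_mul, inv_mul_cancel₀ hd1, map_one]
      obtain ⟨u, hu⟩ : ∃ u, u = AdjoinRoot.of (cj a b τ') (τ (d : F))⁻¹ := ⟨_, rfl⟩
      obtain ⟨v, hv⟩ : ∃ v, v = AdjoinRoot.of (cj a b τ') (τ (d : F)) := ⟨_, rfl⟩
      rw [← hu, ← hv] at h7
      rw [← hv] at h6
      rw [← hu]
      have h8 : u ^ 3 * v ^ 3 = 1 := by rw [← mul_pow, h7, one_pow]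
      linear_combination u ^ 3 * h6 - AdjoinRoot.of (cj a b τ') (τ (a : F)) * u * χ x * (u * v + 1) * h7 -
        AdjoinRoot.of (cj a b τ') (τ (b : F)) * h8
    have hgoal := key
    subst hτ'
    exact hgoal x h0

/-- Galois fields of odd degree -/
theorem adm_odd {F : Type} [Field F] [NumberField F] (hG : IsGalois ℚ F)
    (hodd : Odd (Module.finrank ℚ F)) {a b : 𝓞 F}
    (h : ∀ x : F, x ^ 3 + (a : F) * x + (b : F) ≠ 0) : Adm a b F := by
  have hsurj : ∀ τ : F →+* F, Function.Surjective τ := fun τ => by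
    have h1 : Function.Bijective (τ.toRatAlgHom : F →ₐ[ℚ] F) :=
      Algebra.IsAlgebraic.algHom_bijective _
    exact h1.2
  refine ⟨hG, ⟨RingHom.id F⟩, fun τ x h0 => ?_, fun σ τ h1 h2 => ?_⟩
  · obtain ⟨y, rfl⟩ := hsurj τ x
    apply h y
    apply τ.injective
    rw [map_add, map_add, map_mul, map_pow, h0, map_zero]
  · exfalso
    apply h1
    have h3 : ∀ x : F, σ (σ x) = x := fun x => by
      obtain ⟨y, rfl⟩ := hsurj τ x
      exact RingHom.congr_fun h2 y
    let σ' : F ≃ₐ[ℚ] F := AlgEquiv.ofRingEquiv (f := σ) (fun q => by simp)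
    have h4 : σ' ^ 2 = 1 := by
      rw [pow_two]
      ext x
      exact h3 x
    have h5 : Odd (Nat.card (F ≃ₐ[ℚ] F)) := by
      rw [IsGalois.card_aut_eq_finrank]
      exact hodd
    have h6 : σ' = 1 := by
      have h7 : orderOf σ' ∣ 2 := orderOf_dvd_of_pow_eq_one h4
      have h8 : orderOf σ' ∣ Nat.card (F ≃ₐ[ℚ] F) := orderOf_dvd_natCard σ'
      have h9 : orderOf σ' ∣ 1 := by
        have h10 : Nat.Coprime 2 (Nat.card (F ≃ₐ[ℚ] F)) := (Nat.coprime_two_left).2 h5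
        rw [← h10.gcd_eq_one]
        exact Nat.dvd_gcd h7 h8
      exact orderOf_eq_one_iff.1 (Nat.dvd_one.1 h9)
    ext x
    have h7 : σ' (τ x) = τ x := by rw [h6]; rfl
    exact h7

theorem two_fields (K1 K2 : Type) [f1 : Field K1] [n1 : NumberField K1] [f2 : Field K2]
    [n2 : NumberField K2] : ∃ (K : Type) (_ : Field K) (_ : NumberField K), IsGalois ℚ K ∧
      Nonempty (K1 →+* K) ∧ Nonempty (K2 →+* K) := by
  let fam : Bool → Type := fun i => match i with
    | true => K1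
    | false => K2
  let ff : (i : Bool) → Field (fam i) := fun i => match i with
    | true => f1
    | false => f2
  let nn : (i : Bool) → @NumberField (fam i) (ff i) := fun i => match i with
    | true => n1
    | false => n2
  obtain ⟨K, i1, i2, i3, h⟩ := t_kxn Bool fam
  exact ⟨K, i1, i2, i3, h true, h false⟩

theorem two_fams (J : Type) [Fintype J] (L M : J → Type) [∀ j, Field (L j)] [∀ j, NumberField (L j)]
    [∀ j, Field (M j)] [∀ j, NumberField (M j)] :
    ∃ (K : Type) (_ : Field K) (_ : NumberField K), IsGalois ℚ K ∧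
      (∀ j, Nonempty (L j →+* K)) ∧ ∀ j, Nonempty (M j →+* K) := by
  obtain ⟨K1, a1, a2, a3, ha⟩ := t_kxn J L
  obtain ⟨K2, b1, b2, b3, hb⟩ := t_kxn J M
  obtain ⟨K, i1, i2, i3, ⟨φ⟩, ⟨ψ⟩⟩ := two_fields K1 K2
  exact ⟨K, i1, i2, i3, fun j => ⟨φ.comp (ha j).some⟩, fun j => ⟨ψ.comp (hb j).some⟩⟩

/-- the 2-Selmer groups of the twists are finite -/
theorem fin_sel2 (hI : S_INF) (hN : S_SEMN) (F : Type) [Field F] [NumberField F] (a b : 𝓞 F)
    {M : Type} [Field M] [NumberField M] (h : Adm a b M) (D : ℤ) (hD : Squarefree D) :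
    Finite (Sel2 (shF ((a : F) * (D : F) ^ 2) ((b : F) * (D : F) ^ 3))) := by
  obtain ⟨L, i1, i2, i3, th, hc⟩ := exists_LC F a b h.noroot
  obtain ⟨K, iK1, iK2, iK3, hemb, hM⟩ := two_fields L M
  obtain ⟨V, v1, v2, v3, cd, hcd⟩ := t_vg Unit (fun _ => L) (fun _ => F) K (fun _ => algebraMap F L)
  have hsemi : Semi (K ≃ₐ[ℚ] K) V := hN Unit (fun _ => F) (fun _ => L) (fun _ => a) (fun _ => b)
    (fun _ => th) (fun _ => hc) (fun _ => M) (fun _ => h) K (fun _ => hemb) (fun _ => hM) V cd hcd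
  obtain ⟨B, hB0, hB⟩ := t_lcg F L a b th hc K hemb
  obtain ⟨N, hN⟩ := bound_one hc hemb V cd hcd hsemi B hB0 D hD
  obtain ⟨Φ, hΦ1, hΦ2⟩ := t_shaf hI F L a b th hc D hD.ne_zero
  have hinj : Function.Injective Φ := fun x y hxy => hΦ2 x y (by
    rw [hxy]
    exact ⟨Φ y, rfl⟩)
  by_contra hinf
  rw [not_finite_iff_infinite] at hinf
  obtain ⟨T, hT⟩ := Infinite.exists_subset_card_eq
    (Sel2 (shF ((a : F) * (D : F) ^ 2) ((b : F) * (D : F) ^ 3))) (N + 1)
  have h1 := hN (T.image Φ) (by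
    intro δ hδ
    obtain ⟨x, -, rfl⟩ := Finset.mem_image.1 hδ
    exact ⟨(hΦ1 x).1, hB D hD (Φ x) (hΦ1 x).1 (hΦ1 x).2⟩) (by
    intro δ hδ δ' hδ' hne hsq
    obtain ⟨x, -, rfl⟩ := Finset.mem_image.1 hδ
    obtain ⟨y, -, rfl⟩ := Finset.mem_image.1 hδ'
    exact hne (congrArg Φ (hΦ2 x y hsq)))
  rw [Finset.card_image_of_injective _ hinj, hT] at h1
  omega

/-- the joint moments of the 2-Selmer groups over number fields -/
theorem goalS2 (hI : S_INF) (hN : S_SEMN) (J : Type) [Fintype J] (F M : J → Type)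
    [∀ j, Field (F j)] [∀ j, NumberField (F j)] [∀ j, Field (M j)] [∀ j, NumberField (M j)]
    (a b : (j : J) → 𝓞 (F j)) (h : ∀ j, Adm (a j) (b j) (M j)) :
    ∃ C0 : ℝ, 0 < C0 ∧ ∀ X : ℝ, 1 ≤ X →
      ((∑ D ∈ (Finset.Icc (-⌊X⌋) ⌊X⌋).filter (fun D : ℤ => Squarefree D),
        ∏ j, Nat.card (Sel2 (shF ((a j : F j) * (D : F j) ^ 2) ((b j : F j) * (D : F j) ^ 3))) : ℕ) :
          ℝ) ≤ C0 * X := by
  choose L i1 i2 i3 th hc using fun j => exists_LC (F j) (a j) (b j) (h j).noroot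
  obtain ⟨K, iK1, iK2, iK3, hemb, hM⟩ := two_fams J L M
  obtain ⟨V, v1, v2, v3, cd, hcd⟩ := t_vg J L F K (fun j => algebraMap (F j) (L j))
  have hsemi : Semi (K ≃ₐ[ℚ] K) V := hN J F L a b th hc M h K hemb hM V cd hcd
  choose B hB0 hB using fun j => t_lcg (F j) (L j) (a j) (b j) (th j) (hc j) K (hemb j)
  obtain ⟨C0, hC0, hmain⟩ := t_cntg J L F K (fun j => algebraMap (F j) (L j)) th
    (fun j => datF (hc j) K (hemb j)) V cd hcd hsemi
    (∏ j, B j) (Finset.prod_ne_zero_iff.2 fun j _ => hB0 j)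
  have hΦ := fun (j : J) (D : ℤ) (hD : D ≠ 0) =>
    t_shaf hI (F j) (L j) (a j) (b j) (th j) (hc j) D hD
  have hfin : ∀ (j : J) (D : ℤ), Squarefree D →
      Finite (Sel2 (shF ((a j : F j) * (D : F j) ^ 2) ((b j : F j) * (D : F j) ^ 3))) := fun j D hD =>
    fin_sel2 hI hN (F j) (a j) (b j) (h j) D hD
  let Φ : (j : J) → (D : ℤ) → (hD : D ≠ 0) →
      Sel2 (shF ((a j : F j) * (D : F j) ^ 2) ((b j : F j) * (D : F j) ^ 3)) → L j :=
    fun j D hD => (hΦ j D hD).choose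
  have hΦs := fun (j : J) (D : ℤ) (hD : D ≠ 0) => (hΦ j D hD).choose_spec
  have hinj : ∀ (j : J) (D : ℤ) (hD : D ≠ 0), Function.Injective (Φ j D hD) := by
    intro j D hD x y hxy
    apply (hΦs j D hD).2
    change IsSquare (Φ j D hD x * Φ j D hD y)
    rw [hxy]
    exact ⟨Φ j D hD y, rfl⟩
  let Fs : (j : J) → ℤ → Finset (L j) := fun j D => if hD : Squarefree D then
    (@Finset.univ _ (@Fintype.ofFinite _ (hfin j D hD))).image (Φ j D hD.ne_zero) else ∅
  refine ⟨C0, hC0, fun X hX => ?_⟩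
  have hF := hmain Fs (by
    intro j D δ hδ
    by_cases hD : Squarefree D
    · simp only [Fs, dif_pos hD, Finset.mem_image] at hδ
      obtain ⟨x, -, rfl⟩ := hδ
      have h5 := (hΦs j D hD.ne_zero).1 x
      exact ⟨h5.1, Pool.Agent.Q96.ESG.gd1_mono (hB j D hD _ h5.1 h5.2)
        (Finset.dvd_prod_of_mem B (Finset.mem_univ j))⟩
    · simp only [Fs, dif_neg hD] at hδ
      exact absurd hδ (Finset.notMem_empty _)) (by
    intro j D δ hδ δ' hδ' hne hsq
    by_cases hD : Squarefree D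
    · simp only [Fs, dif_pos hD, Finset.mem_image] at hδ hδ'
      obtain ⟨x, -, rfl⟩ := hδ
      obtain ⟨y, -, rfl⟩ := hδ'
      exact hne (congrArg _ ((hΦs j D hD.ne_zero).2 x y hsq))
    · simp only [Fs, dif_neg hD] at hδ
      exact absurd hδ (Finset.notMem_empty _)) X hX
  refine le_trans (le_of_eq ?_) hF
  congr 1
  refine Finset.sum_congr rfl fun D hD => ?_
  have hD0 : Squarefree D := (Finset.mem_filter.1 hD).2
  refine Finset.prod_congr rfl fun j _ => ?_
  simp only [Fs, dif_pos hD0]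
  rw [Finset.card_image_of_injective _ (hinj j D hD0.ne_zero)]
  rw [@Nat.card_eq_fintype_card _ (@Fintype.ofFinite _ (hfin j D hD0))]
  rfl

end Pool.Agent.Q161.ESF
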